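import Pool.Agent.Q295.Shiq.Det
import Pool.Agent.Q295.Shiq.Walk

/-! MP_b23abe_pr, Q1: almost surely the SHIQ has positive anchored expansion; in fact
`|S|_deg ≤ 3 |∂_E S|` for every finite nonempty set `S` of vertices, so that `i*_E ≥ 1/3`. -/

set_option autoImplicit false

namespace Pool.Agent.Results.MP_b23abe_pr.AnchoredExpansion

open MeasureTheory ProbabilityTheory Filter Topology Q295.Shiq

theorem good_ae {Ω : Type*} [MeasurableSpace Ω] (μ : Measure Ω) [IsProbabilityMeasure μ]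
    (d : Vtx → Ω → Fin 3) (hm : ∀ v, Measurable (d v)) (hi : iIndepFun d μ)
    (hu : ∀ v j, μ {ω | d v ω = j} = 1 / 3) : ∀ᵐ ω ∂μ, Good (fun v => d v ω) := by
  have h1 : ∀ (a : Fin 3) (v : Vtx), ∀ᵐ ω ∂μ, ∀ t : ℤ,
      (∃ n, t < ∑ i ∈ Finset.range n, (((d (ray a v (i + 1)) ω : ℕ) : ℤ) - 1)) ∧
      (∃ n, ∑ i ∈ Finset.range n, (((d (ray a v (i + 1)) ω : ℕ) : ℤ) - 1) < t) := by
    intro a v
    have hinj : Function.Injective (fun i : ℕ => ray a v (i + 1)) := by
      intro i j hij
      have := congrArg List.length hij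
      simp [ray] at this
      exact this
    exact walk_two (fun i => d (ray a v (i + 1))) (fun i => hm _) (hi.precomp hinj)
      (fun i j => hu _ j)
  have h2 : ∀ᵐ ω ∂μ, ∀ (a : Fin 3) (v : Vtx), ∀ t : ℤ,
      (∃ n, t < ∑ i ∈ Finset.range n, (((d (ray a v (i + 1)) ω : ℕ) : ℤ) - 1)) ∧
      (∃ n, ∑ i ∈ Finset.range n, (((d (ray a v (i + 1)) ω : ℕ) : ℤ) - 1) < t) := by
    rw [ae_all_iff]
    intro a
    rw [ae_all_iff]
    intro v
    exact h1 a v
  filter_upwards [h2] with ω h
  exact h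

/-- Let `(d v)` be independent and uniform on `Fin 3` (so that `d v - 1` is uniform on
`{-1, 0, 1}`). Almost surely: every corner has a successor, the SHIQ is connected and locally
finite, every finite nonempty set `S` of vertices satisfies `|S|_deg ≤ 3 |∂_E S|`, and, for every
base vertex `o`, the infima over the finite connected sets containing `o` with `n ≤ |S|_deg`
converge to a limit (the anchored expansion constant) which lies in `[1/3, 1]`. -/
theorem result {Ω : Type*} [MeasurableSpace Ω] (μ : Measure Ω) [IsProbabilityMeasure μ]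
    (d : Vtx → Ω → Fin 3) (hm : ∀ v, Measurable (d v)) (hi : iIndepFun d μ)
    (hu : ∀ v j, μ {ω | d v ω = j} = 1 / 3) :
    ∀ᵐ ω ∂μ,
      (∀ c, HasSucc (fun v => d v ω) c) ∧
      (shiq (fun v => d v ω)).Connected ∧
      (∀ v, deg (fun v => d v ω) v < ⊤) ∧
      (∀ S : Finset Vtx, vol (fun v => d v ω) S ≤ 3 * (bdry (fun v => d v ω) S).encard) ∧
      (∀ o : Vtx,
        Tendsto (ratioInf (fun v => d v ω) o) atTop (𝓝 (anchored (fun v => d v ω) o)) ∧
        1 / 3 ≤ anchored (fun v => d v ω) o ∧ anchored (fun v => d v ω) o ≤ 1) := by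
  filter_upwards [good_ae μ d hm hi hu] with ω h
  refine ⟨hasSucc h, shiq_connected h, deg_lt_top h, vol_le h, fun o => ⟨ratio_tendsto _ o, ?_, ?_⟩⟩
  · exact (ratioInf_ge h o 0).trans (le_iSup (ratioInf (fun v => d v ω) o) 0)
  · exact iSup_le fun n => ratioInf_le h o n

end Pool.Agent.Results.MP_b23abe_pr.AnchoredExpansion
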